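import Pool.Agent.H98.UDA.CYa

/-!
# The current of a cycle (row CY)
-/

set_option autoImplicit false

open Polynomial MeasureTheory Filter Topology Set
open scoped ComplexConjugate ComplexOrder ENNReal Nat

namespace Pool.Agent.H98.UDA

open Pool.Agent.H83.UE

/-- gluing measurable functions along disjoint injective pieces -/
theorem glue {k m : ℕ} (S : ℕ → Set (Fin m → ℂ)) (ψ : ℕ → (Fin m → ℂ) → (Fin k → ℂ))
    (hS : ∀ a, MeasurableSet (S a)) (hc : ∀ a, ContinuousOn (ψ a) (S a))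
    (hinj : ∀ a, InjOn (ψ a) (S a))
    (hdis : Pairwise fun a b => Disjoint (ψ a '' S a) (ψ b '' S b))
    (f : ℕ → (Fin m → ℂ) → ℂ) (hf : ∀ a, Measurable (f a)) :
    ∃ R : (Fin k → ℂ) → ℂ, Measurable R ∧ ∀ a, ∀ t ∈ S a, R (ψ a t) = f a t := by
  classical
  have huniq : ∀ a b t s, t ∈ S a → s ∈ S b → ψ a t = ψ b s → a = b ∧ t = s := by
    intro a b t s ht hs h
    have hab : a = b := by
      by_contra hne
      exact Set.disjoint_left.1 (hdis hne) ⟨t, ht, rfl⟩ ⟨s, hs, h.symm⟩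
    subst hab
    exact ⟨rfl, hinj a ht hs h⟩
  obtain ⟨R, hR⟩ : ∃ R : (Fin k → ℂ) → ℂ, R = fun z =>
      if h : ∃ p : ℕ × (Fin m → ℂ), p.2 ∈ S p.1 ∧ ψ p.1 p.2 = z then
        f h.choose.1 h.choose.2 else 0 := ⟨_, rfl⟩
  have h1 : ∀ a, ∀ t ∈ S a, R (ψ a t) = f a t := by
    intro a t ht
    have h : ∃ p : ℕ × (Fin m → ℂ), p.2 ∈ S p.1 ∧ ψ p.1 p.2 = ψ a t := ⟨(a, t), ht, rfl⟩
    rw [hR]
    simp only [dif_pos h]
    obtain ⟨e1, e2⟩ := huniq _ _ _ _ h.choose_spec.1 ht h.choose_spec.2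
    rw [e1, e2]
  have h0 : ∀ z, z ∉ ⋃ a, ψ a '' S a → R z = 0 := by
    intro z hz
    rw [hR]
    simp only
    rw [dif_neg]
    rintro ⟨p, hp1, hp2⟩
    exact hz (Set.mem_iUnion.2 ⟨p.1, p.2, hp1, hp2⟩)
  refine ⟨R, ?_, h1⟩
  intro B hB
  have e : R ⁻¹' B = (⋃ a, ψ a '' (S a ∩ f a ⁻¹' B)) ∪
      ((⋃ a, ψ a '' S a)ᶜ ∩ {_z | (0 : ℂ) ∈ B}) := by
    ext z
    simp only [Set.mem_preimage, Set.mem_union, Set.mem_inter_iff, Set.mem_compl_iff]
    constructor
    · intro hz
      by_cases hzP : z ∈ ⋃ a, ψ a '' S a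
      · left
        obtain ⟨a, t, ht, rfl⟩ := Set.mem_iUnion.1 hzP
        rw [h1 a t ht] at hz
        exact Set.mem_iUnion.2 ⟨a, t, ⟨ht, hz⟩, rfl⟩
      · right
        refine ⟨hzP, ?_⟩
        rw [h0 z hzP] at hz
        exact hz
    · rintro (hz | ⟨hz, h0B⟩)
      · obtain ⟨a, t, ⟨ht, htB⟩, rfl⟩ := Set.mem_iUnion.1 hz
        rw [h1 a t ht]
        exact htB
      · rw [h0 z hz]
        exact h0B
  rw [e]
  refine MeasurableSet.union (MeasurableSet.iUnion fun a => ?_) (MeasurableSet.inter ?_ ?_)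
  · exact ((hS a).inter (hf a hB)).image_of_continuousOn_injOn
      ((hc a).mono Set.inter_subset_left) ((hinj a).mono Set.inter_subset_left)
  · exact (MeasurableSet.iUnion fun a =>
      (hS a).image_of_continuousOn_injOn (hc a) (hinj a)).compl
  · exact MeasurableSet.const _

/-- almost all tuples have distinct entries -/
theorem ae_inj (m : ℕ) : ∀ᵐ y : Fin m → ℂ, Function.Injective y := by
  have h : ∀ i j : Fin m, i ≠ j → ∀ᵐ y : Fin m → ℂ, y i ≠ y j := by
    intro i j hij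
    obtain ⟨s, hs⟩ : ∃ s : Submodule ℝ (Fin m → ℂ), s = LinearMap.ker
        ((LinearMap.proj i : (Fin m → ℂ) →ₗ[ℝ] ℂ) - LinearMap.proj j) := ⟨_, rfl⟩
    have hmem : ∀ y : Fin m → ℂ, y ∈ s ↔ y i = y j := by
      intro y
      rw [hs, LinearMap.mem_ker, LinearMap.sub_apply, LinearMap.proj_apply, LinearMap.proj_apply,
        sub_eq_zero]
    have htop : s ≠ ⊤ := by
      intro htop
      have h1 : (Pi.single i (1 : ℂ) : Fin m → ℂ) ∈ s := htop ▸ Submodule.mem_top
      rw [hmem, Pi.single_eq_same, Pi.single_eq_of_ne (Ne.symm hij)] at h1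
      exact one_ne_zero h1
    have h2 := Measure.addHaar_submodule (volume : Measure (Fin m → ℂ)) s htop
    rw [ae_iff]
    refine le_antisymm (le_trans (measure_mono ?_) h2.le) bot_le
    intro y hy
    simp only [Set.mem_ofPred_eq, not_not] at hy
    exact (hmem y).2 hy
  have h2 : ∀ᵐ y : Fin m → ℂ, ∀ i j : Fin m, i ≠ j → y i ≠ y j := by
    rw [ae_all_iff]
    intro i
    rw [ae_all_iff]
    intro j
    by_cases hij : i = j
    · exact Eventually.of_forall fun y h => absurd hij h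
    · filter_upwards [h i j hij] with y hy _
      exact hy
  filter_upwards [h2] with y hy i j hij
  by_contra hne
  exact hy i j hne hij

/-- the sum over the points of the fibre of the pieces -/
theorem fibre_sum {k m : ℕ} (Q : ℕ → Set (Fin k → ℂ)) (X : Set (Fin k → ℂ)) (hX : X.Finite)
    (hQX : ∀ x, x ∈ X ↔ ∃ a, x ∈ Q a) (hdis : ∀ a b x, x ∈ Q a → x ∈ Q b → a = b)
    (F : (Fin k → ℂ) → ℝ≥0∞) :
    ∑' a, ∑' x : Q a, F x.1 = ∑ x ∈ hX.toFinset, F x := by
  classical
  have h1 : ∀ a, ∑' x : Q a, F x.1 = ∑' x, (Q a).indicator F x := fun a => tsum_subtype (Q a) F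
  rw [tsum_congr h1, ENNReal.tsum_comm]
  have h2 : ∀ x, ∑' a, (Q a).indicator F x = X.indicator F x := by
    intro x
    by_cases hx : x ∈ X
    · obtain ⟨a, ha⟩ := (hQX x).1 hx
      rw [tsum_eq_single a, Set.indicator_of_mem ha, Set.indicator_of_mem hx]
      intro b hb
      rw [Set.indicator_of_notMem]
      intro hxb
      exact hb (hdis b a x hxb ha)
    · rw [Set.indicator_of_notMem hx, ENNReal.tsum_eq_zero]
      intro a
      rw [Set.indicator_of_notMem]
      intro hxa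
      exact hx ((hQX x).2 ⟨a, hxa⟩)
  rw [tsum_congr h2, tsum_eq_sum (s := hX.toFinset)]
  · refine Finset.sum_congr rfl fun x hx => ?_
    rw [Set.indicator_of_mem (hX.mem_toFinset.1 hx)]
  · intro x hx
    rw [Set.indicator_of_notMem]
    intro h
    exact hx (hX.mem_toFinset.2 h)

theorem pf_CY (h1 : T_AF) (h2 : T_NEG) (h3 : T_NES) (h4 : T_CO2) (h5 : T_IT) : T_CY := by
  intro k m hmk V δ hV c r S ψ hP
  classical
  obtain ⟨hPa, hdis, hHd⟩ := hP
  have hS : ∀ a, MeasurableSet (S a) := fun a => (hPa a).1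
  have hSb : ∀ a, S a ⊆ Metric.ball (c a) (r a) := fun a => (hPa a).2.1
  have hψd : ∀ a, DifferentiableOn ℂ (ψ a) (Metric.ball (c a) (r a)) := fun a => (hPa a).2.2.1
  have hinj : ∀ a, InjOn (ψ a) (S a) := fun a => (hPa a).2.2.2.1
  have hV' : ∀ a, ψ a '' S a ⊆ coef ⁻¹' V := fun a => (hPa a).2.2.2.2
  have hcont : ∀ a, ContinuousOn (ψ a) (S a) := fun a => ((hψd a).continuousOn).mono (hSb a)
  choose R hRm hR using fun I : Idx k m => glue S ψ hS hcont hinj hdis
    (fun a => rmin (ψ a) I) (fun a => rmin_measurable (ψ a) I)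
  obtain ⟨st, hst⟩ : ∃ st : (Fin k → ℂ) → ℕ, st = fun z => stab (Finset.univ.val.map z) :=
    ⟨_, rfl⟩
  have hstm : Measurable st := hst ▸ stab_measurable k
  obtain ⟨H, hH⟩ : ∃ H : (Fin k → ℂ) → Matrix (Idx k m) (Idx k m) ℂ, H = fun z =>
      (st z : ℂ) • Matrix.vecMulVec (fun I => R I z) (star fun I => R I z) := ⟨_, rfl⟩
  have hHe : ∀ z I J, H z I J = (st z : ℂ) * (R I z * conj (R J z)) := by
    intro z I J
    rw [hH]
    rfl
  have hstc : Measurable fun z => (st z : ℂ) := (measurable_from_nat).comp hstm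
  have hHm : ∀ I J, Measurable fun z => H z I J := by
    intro I J
    simp only [hHe]
    exact hstc.mul ((hRm I).mul (Complex.continuous_conj.measurable.comp (hRm J)))
  have hHS : ∀ a, ∀ t ∈ S a, ∀ I J, H (ψ a t) I J =
      (st (ψ a t) : ℂ) * (rmin (ψ a) I t * conj (rmin (ψ a) J t)) := by
    intro a t ht I J
    rw [hHe, hR I a t ht, hR J a t ht]
  -- the measure
  obtain ⟨ψ', hψ'⟩ : ∃ ψ' : ℕ → (Fin m → ℂ) → (Fin k → ℂ), ψ' = fun a =>
      (S a).piecewise (ψ a) (fun _ => 0) := ⟨_, rfl⟩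
  have hψ'e : ∀ a, ∀ t ∈ S a, ψ' a t = ψ a t := by
    intro a t ht
    rw [hψ']
    exact Set.piecewise_eq_of_mem _ _ _ ht
  have hψ'm : ∀ a, Measurable (ψ' a) := by
    intro a
    rw [hψ']
    exact ContinuousOn.measurable_piecewise (hcont a) continuousOn_const (hS a)
  obtain ⟨σ, hσ⟩ : ∃ σ : Measure (Fin k → ℂ), σ = Measure.sum fun a =>
      Measure.map (ψ' a) (volume.restrict (S a)) := ⟨_, rfl⟩
  have hlint : ∀ G : (Fin k → ℂ) → ℝ≥0∞, Measurable G →
      ∫⁻ z, G z ∂σ = ∑' a, ∫⁻ t in S a, G (ψ a t) := by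
    intro G hG
    rw [hσ, lintegral_sum_measure]
    refine tsum_congr fun a => ?_
    rw [lintegral_map hG (hψ'm a)]
    exact setLIntegral_congr_fun (hS a) fun t ht => by rw [hψ'e a t ht]
  -- the marginals
  have hmarg : ∀ J : Idx k m, (σ.withDensity fun z => ENNReal.ofReal (H z J J).re).map
      (fun z (j : {j // j ∈ J.1}) => z j.1) = (((k - m)! * δ : NNReal) : ENNReal) • volume := by
    intro J
    choose Z hZm hZS hZ0 hAF hZN using fun a => af0 h1 J (c a) (r a) (S a) (ψ a) (hS a) (hSb a)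
      (hψd a) (hinj a)
    have hπ : Measurable fun (z : Fin k → ℂ) (j : {j // j ∈ J.1}) => z j.1 :=
      measurable_pi_lambda _ fun j => measurable_pi_apply _
    have hpr : Measurable (prJ (k := k) J) := (prL J).continuous.measurable
    obtain ⟨e, he⟩ : ∃ e : Fin m ≃ {j // j ∈ J.1}, ∀ i, (e i).1 = J.1.orderEmbOfFin J.2 i :=
      ⟨(J.1.orderIsoOfFin J.2).toEquiv, fun i => rfl⟩
    obtain ⟨E, hE, hEmp⟩ : ∃ E : (Fin m → ℂ) → ({j // j ∈ J.1} → ℂ),
        (∀ y i, E y (e i) = y i) ∧ MeasurePreserving E volume volume := by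
      refine ⟨MeasurableEquiv.piCongrLeft (fun _ : {j // j ∈ J.1} => ℂ) e, fun y i => ?_,
        volume_measurePreserving_piCongrLeft (fun _ => ℂ) e⟩
      exact Equiv.piCongrLeft_apply_apply (fun _ : {j // j ∈ J.1} => ℂ) e y i
    have hEπ : ∀ z : Fin k → ℂ, E (prJ J z) = fun j => z j.1 := by
      intro z
      funext j
      obtain ⟨i, rfl⟩ := e.surjective j
      rw [hE, he]
      rfl
    -- almost every fibre
    have hgood : ∀ᵐ y : Fin m → ℂ, ∀ F : (Fin k → ℂ) → ℝ≥0∞,
        ∃ X : Finset (Fin k → ℂ), (∀ x ∈ X, prJ J x = y) ∧ ∑ x ∈ X, st x = (k - m)! * δ ∧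
        ∑' a, ∑' x : {x // prJ J x = y ∧ ∃ t ∈ S a \ Z a, ψ a t = x ∧ rmin (ψ a) J t ≠ 0}, F x.1 =
          ∑ x ∈ X, F x := by
      have a1 : ∀ᵐ y : Fin m → ℂ, y ∉ prJ J '' (coef ⁻¹' V \ ⋃ a, ψ a '' S a) := by
        rw [ae_iff]
        simp only [not_not]
        exact neg0 h2 J _ hHd
      have a2 : ∀ᵐ y : Fin m → ℂ, ∀ a, y ∉ prJ J '' (ψ a '' Z a) := by
        rw [ae_all_iff]
        intro a
        rw [ae_iff]
        simp only [not_not]
        exact neg0 h2 J _ (h3 k m (c a) (r a) (Z a) (ψ a) ((hZS a).trans (hSb a)) (hψd a) (hZ0 a))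
      have a3 : ∀ᵐ y : Fin m → ℂ, ∀ a, y ∉ prJ J '' {x | ∃ t ∈ S a \ Z a, ψ a t = x ∧
          rmin (ψ a) J t = 0} := by
        rw [ae_all_iff]
        intro a
        rw [ae_iff]
        simp only [not_not]
        exact hZN a
      filter_upwards [a1, a2, a3, hV.degree, ae_inj m] with y b1 b2 b3 b4 b5 F
      obtain ⟨hfin, hdeg⟩ := b4
      obtain ⟨ζ, hζ⟩ : ∃ ζ : {j // j ∈ J.1} → ℂ, ζ = fun j => y (e.symm j) := ⟨_, rfl⟩
      have hζi : Function.Injective ζ := by
        rw [hζ]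
        exact b5.comp e.symm.injective
      have hset : ({w | w ∈ V ∧ ∀ j, (mon w).IsRoot (ζ j)} : Set (Fin k → ℂ)) =
          {w | w ∈ V ∧ ∀ j, (mon w).IsRoot (y j)} := by
        ext w
        simp only [Set.mem_ofPred_eq]
        refine and_congr_right fun _ => ?_
        constructor
        · intro h i
          have := h (e i)
          rw [hζ] at this
          simp only [Equiv.symm_apply_apply] at this
          exact this
        · intro h j
          rw [hζ]
          exact h (e.symm j)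
      obtain ⟨c1, c2⟩ := h4 k m hmk V J ζ hζi (hset ▸ hfin)
      have hXset : {z : Fin k → ℂ | coef z ∈ V ∧ ∀ j : {j // j ∈ J.1}, z j.1 = ζ j} =
          {z | coef z ∈ V ∧ prJ J z = y} := by
        ext z
        simp only [Set.mem_ofPred_eq]
        refine and_congr_right fun _ => ?_
        constructor
        · intro h
          funext i
          have := h (e i)
          rw [hζ, he] at this
          simp only [Equiv.symm_apply_apply] at this
          exact this
        · intro h j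
          obtain ⟨i, rfl⟩ := e.surjective j
          rw [hζ, he, ← h]
          simp only [Equiv.symm_apply_apply]
          rfl
      refine ⟨c1.toFinset, ?_, ?_, ?_⟩
      · intro x hx
        have := c1.mem_toFinset.1 hx
        rw [hXset] at this
        exact this.2
      · rw [finsum_mem_eq_finite_toFinset_sum _ c1] at c2
        rw [hst]
        rw [c2]
        congr 1
        rw [← hdeg, hset]
        refine finsum_mem_congr rfl fun w _ => ?_
        refine (Fintype.prod_equiv e _ _ fun i => ?_).symm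
        rw [hζ]
        simp only [Equiv.symm_apply_apply]
      · refine fibre_sum (m := m)
          (fun a => {x | prJ J x = y ∧ ∃ t ∈ S a \ Z a, ψ a t = x ∧ rmin (ψ a) J t ≠ 0}) _ c1
          ?_ ?_ F
        · intro x
          rw [hXset]
          constructor
          · rintro ⟨d1, d2⟩
            have d3 : x ∈ ⋃ a, ψ a '' S a := by
              by_contra hcon
              exact b1 ⟨x, ⟨d1, hcon⟩, d2⟩
            obtain ⟨a, t, ht, rfl⟩ := Set.mem_iUnion.1 d3
            refine ⟨a, d2, t, ⟨ht, ?_⟩, rfl, ?_⟩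
            · intro htZ
              exact b2 a ⟨ψ a t, ⟨t, htZ, rfl⟩, d2⟩
            · intro h0
              refine b3 a ⟨ψ a t, ⟨t, ⟨ht, ?_⟩, rfl, h0⟩, d2⟩
              intro htZ
              exact b2 a ⟨ψ a t, ⟨t, htZ, rfl⟩, d2⟩
          · rintro ⟨a, d1, t, ht, rfl, -⟩
            exact ⟨hV' a ⟨t, ht.1, rfl⟩, d1⟩
        · rintro a b x ⟨-, t, ht, d1, -⟩ ⟨-, s, hs, d2, -⟩
          by_contra hne
          exact Set.disjoint_left.1 (hdis hne) ⟨t, ht.1, d1⟩ ⟨s, hs.1, d2⟩
    refine Measure.ext fun B hB => ?_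
    have hDm : Measurable fun z => ENNReal.ofReal (H z J J).re :=
      (Complex.measurable_re.comp (hHm J J)).ennreal_ofReal
    rw [Measure.map_apply hπ hB, withDensity_apply _ (hπ hB), ← lintegral_indicator (hπ hB),
      hlint _ (hDm.indicator (hπ hB))]
    obtain ⟨B', hB'⟩ : ∃ B', B' = E ⁻¹' B := ⟨_, rfl⟩
    have hB'm : MeasurableSet B' := hB' ▸ hEmp.measurable hB
    obtain ⟨F, hF⟩ : ∃ F : (Fin k → ℂ) → ℝ≥0∞, F = fun z =>
        B'.indicator (fun _ => 1) (prJ J z) * (st z : ℝ≥0∞) := ⟨_, rfl⟩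
    have hstE : Measurable fun z => (st z : ℝ≥0∞) := (measurable_from_nat).comp hstm
    have hFm : Measurable F := by
      rw [hF]
      exact ((measurable_const.indicator hB'm).comp hpr).mul hstE
    have s1 : ∀ a, ∫⁻ t in S a, ((fun (z : Fin k → ℂ) (j : {j // j ∈ J.1}) => z j.1) ⁻¹' B).indicator
        (fun z => ENNReal.ofReal (H z J J).re) (ψ a t) =
        ∫⁻ y, ∑' x : {x // prJ J x = y ∧ ∃ t ∈ S a \ Z a, ψ a t = x ∧ rmin (ψ a) J t ≠ 0}, F x.1 := by
      intro a
      rw [← ((hAF a F hFm).2)]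
      refine setLIntegral_congr_fun (hS a) fun t ht => ?_
      have q1 : ENNReal.ofReal (H (ψ a t) J J).re =
          (st (ψ a t) : ℝ≥0∞) * ENNReal.ofReal (‖rmin (ψ a) J t‖ ^ 2) := by
        rw [hHS a t ht J J, Complex.mul_conj, Complex.normSq_eq_norm_sq, ← Complex.ofReal_natCast,
          ← Complex.ofReal_mul, Complex.ofReal_re, ENNReal.ofReal_mul (Nat.cast_nonneg _),
          ENNReal.ofReal_natCast]
      by_cases hz : (fun j : {j // j ∈ J.1} => ψ a t j.1) ∈ B
      · have q2 : prJ J (ψ a t) ∈ B' := by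
          rw [hB', Set.mem_preimage, hEπ]
          exact hz
        rw [Set.indicator_of_mem (show ψ a t ∈ (fun (z : Fin k → ℂ) (j : {j // j ∈ J.1}) => z j.1) ⁻¹' B
          from hz), hF]
        simp only
        rw [Set.indicator_of_mem q2, one_mul, q1]
      · have q2 : prJ J (ψ a t) ∉ B' := by
          rw [hB', Set.mem_preimage, hEπ]
          exact hz
        rw [Set.indicator_of_notMem (show ψ a t ∉ (fun (z : Fin k → ℂ) (j : {j // j ∈ J.1}) => z j.1) ⁻¹' B
          from hz), hF]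
        simp only
        rw [Set.indicator_of_notMem q2, zero_mul, zero_mul]
    rw [tsum_congr s1, ← lintegral_tsum fun a => (hAF a F hFm).1.aemeasurable]
    have s2 : ∀ᵐ y : Fin m → ℂ, ∑' a, ∑' x : {x // prJ J x = y ∧ ∃ t ∈ S a \ Z a, ψ a t = x ∧
        rmin (ψ a) J t ≠ 0}, F x.1 =
        B'.indicator (fun _ => (((k - m)! * δ : NNReal) : ENNReal)) y := by
      filter_upwards [hgood] with y hy
      obtain ⟨X, x1, x2, x3⟩ := hy F
      rw [x3]
      have x4 : ∀ x ∈ X, F x = B'.indicator (fun _ => 1) y * (st x : ℝ≥0∞) := by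
        intro x hx
        rw [hF]
        simp only
        rw [x1 x hx]
      rw [Finset.sum_congr rfl x4, ← Finset.mul_sum, ← Nat.cast_sum, x2]
      by_cases hyB : y ∈ B'
      · rw [Set.indicator_of_mem hyB, Set.indicator_of_mem hyB, one_mul]
        push_cast
        rfl
      · rw [Set.indicator_of_notMem hyB, Set.indicator_of_notMem hyB, zero_mul]
    rw [lintegral_congr_ae s2, lintegral_indicator hB'm, setLIntegral_const,
      Measure.smul_apply, smul_eq_mul, hB', hEmp.measure_preimage hB.nullMeasurableSet]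
  refine ⟨⟨σ, H, hHm, ?_, fun _ => (k - m)! * δ, hmarg⟩, fun J => rfl, ?_, ?_⟩
  · intro z
    rw [hH]
    refine (Matrix.posSemidef_vecMulVec_self_star _).smul ?_
    exact_mod_cast Nat.zero_le _
  · intro F I J hF
    simp only
    rw [hlint (fun z => F z * ‖H z I J‖ₑ) (hF.mul (hHm I J).enorm)]
    refine tsum_congr fun a => setLIntegral_congr_fun (hS a) fun t ht => ?_
    have q1 : ‖((st (ψ a t) : ℂ))‖ₑ = (st (ψ a t) : ℝ≥0∞) := by
      rw [← ofReal_norm_eq_enorm, Complex.norm_natCast, ENNReal.ofReal_natCast]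
    have q2 : ‖conj (rmin (ψ a) J t)‖ₑ = ‖rmin (ψ a) J t‖ₑ := by
      rw [← ofReal_norm_eq_enorm, ← ofReal_norm_eq_enorm, RCLike.norm_conj]
    rw [hHS a t ht I J, enorm_mul, enorm_mul, q1, q2, hst]
    ring
  · intro F I J hF hint
    simp only at hint ⊢
    rw [hσ] at hint ⊢
    rw [← (hasSum_integral_measure hint).tsum_eq]
    refine tsum_congr fun a => ?_
    have hFH : Measurable fun z => F z * H z I J := hF.mul (hHm I J)
    rw [integral_map (hψ'm a).aemeasurable hFH.aestronglyMeasurable]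
    refine setIntegral_congr_fun (hS a) fun t ht => ?_
    show F (ψ' a t) * H (ψ' a t) I J = _
    rw [hψ'e a t ht, hHS a t ht I J, hst]
    ring

end Pool.Agent.H98.UDA
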