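import Pool.Agent.H83.UE.Targets

/-!
# The homogeneous lift is proper (row FN)
-/

set_option autoImplicit false

open Polynomial MeasureTheory Filter Topology

namespace Pool.Agent.H98.UDA

open Pool.Agent.H83.UE

theorem hev_continuous (d : ℕ) (A : ℂ[X]) : Continuous (hev d A) := by
  unfold hev
  fun_prop

theorem hev_smul (d : ℕ) (A : ℂ[X]) (t : ℂ) (v : ℂ × ℂ) : hev d A (t • v) = t ^ d * hev d A v := by
  unfold hev
  rw [Finset.mul_sum]
  refine Finset.sum_congr rfl fun i hi => ?_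
  have h1 : i ≤ d := Nat.lt_succ_iff.1 (Finset.mem_range.1 hi)
  have h2 : t ^ d = t ^ i * t ^ (d - i) := by rw [← pow_add, Nat.add_sub_cancel' h1]
  rw [Prod.smul_fst, Prod.smul_snd, smul_eq_mul, smul_eq_mul, mul_pow, mul_pow, h2]
  ring

theorem hev_eval (d : ℕ) (A : ℂ[X]) (hA : A.natDegree ≤ d) (v : ℂ × ℂ) (hv : v.2 ≠ 0) :
    hev d A v = v.2 ^ d * A.eval (v.1 / v.2) := by
  rw [Polynomial.eval_eq_sum_range' (Nat.lt_succ_of_le hA), Finset.mul_sum]
  unfold hev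
  refine Finset.sum_congr rfl fun i hi => ?_
  have h1 : i ≤ d := Nat.lt_succ_iff.1 (Finset.mem_range.1 hi)
  have h2 : v.2 ^ d = v.2 ^ i * v.2 ^ (d - i) := by rw [← pow_add, Nat.add_sub_cancel' h1]
  rw [div_pow, h2]
  have : v.2 ^ i ≠ 0 := pow_ne_zero _ hv
  field_simp

theorem hev_inf (d : ℕ) (A : ℂ[X]) (v : ℂ × ℂ) (hv : v.2 = 0) :
    hev d A v = A.coeff d * v.1 ^ d := by
  unfold hev
  rw [Finset.sum_eq_single d]
  · rw [Nat.sub_self, pow_zero, mul_one]
  · intro i hi hid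
    have h1 : i ≤ d := Nat.lt_succ_iff.1 (Finset.mem_range.1 hi)
    rw [hv, zero_pow (by omega), mul_zero]
  · intro h
    exact absurd (Finset.mem_range.2 (Nat.lt_succ_self d)) h

theorem F_ne_zero {d : ℕ} (hd : 1 ≤ d) (g : RatMap d) (v : ℂ × ℂ) (hv : v ≠ 0) : g.F v ≠ 0 := by
  intro h
  have h1 : hev d g.P v = 0 := congrArg Prod.fst h
  have h2 : hev d g.Q v = 0 := congrArg Prod.snd h
  by_cases hv2 : v.2 = 0
  · have hv1 : v.1 ≠ 0 := fun h3 => hv (Prod.ext h3 hv2)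
    rw [hev_inf d _ v hv2] at h1 h2
    have h3 : v.1 ^ d ≠ 0 := pow_ne_zero _ hv1
    have h4 := (mul_eq_zero.1 h1).resolve_right h3
    have h5 := (mul_eq_zero.1 h2).resolve_right h3
    rcases g.deg with h6 | h6
    · have h7 : g.P.leadingCoeff = 0 := by rw [Polynomial.leadingCoeff, h6]; exact h4
      rw [Polynomial.leadingCoeff_eq_zero.1 h7, Polynomial.natDegree_zero] at h6
      omega
    · have h7 : g.Q.leadingCoeff = 0 := by rw [Polynomial.leadingCoeff, h6]; exact h5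
      rw [Polynomial.leadingCoeff_eq_zero.1 h7, Polynomial.natDegree_zero] at h6
      omega
  · rw [hev_eval d _ g.degP v hv2] at h1
    rw [hev_eval d _ g.degQ v hv2] at h2
    have h3 : v.2 ^ d ≠ 0 := pow_ne_zero _ hv2
    have h4 := (mul_eq_zero.1 h1).resolve_left h3
    have h5 := (mul_eq_zero.1 h2).resolve_left h3
    obtain ⟨a, b, hab⟩ := g.coprime
    have h6 := congrArg (Polynomial.eval (v.1 / v.2)) hab
    rw [Polynomial.eval_add, Polynomial.eval_mul, Polynomial.eval_mul, h4, h5, mul_zero, mul_zero,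
      add_zero, Polynomial.eval_one] at h6
    exact zero_ne_one h6

theorem pf_FN : T_FN := by
  intro d hd g
  have hcont : Continuous g.F := by
    have h1 := hev_continuous d g.P
    have h2 := hev_continuous d g.Q
    exact h1.prodMk h2
  refine ⟨hcont, ?_⟩
  have hsm : ∀ (t : ℂ) (v : ℂ × ℂ), g.F (t • v) = t ^ d • g.F v := by
    intro t v
    exact Prod.ext (hev_smul d g.P t v) (hev_smul d g.Q t v)
  have hK : IsCompact (Metric.sphere (0 : ℂ × ℂ) 1) := isCompact_sphere _ _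
  have hne : (Metric.sphere (0 : ℂ × ℂ) 1).Nonempty :=
    ⟨(1, 0), by rw [mem_sphere_zero_iff_norm]; simp⟩
  obtain ⟨a, ha, hamin⟩ := hK.exists_isMinOn hne hcont.norm.continuousOn
  obtain ⟨b, hb, hbmax⟩ := hK.exists_isMaxOn hne hcont.norm.continuousOn
  have ha0 : a ≠ 0 := by
    intro h
    rw [mem_sphere_zero_iff_norm, h, norm_zero] at ha
    exact zero_ne_one ha
  have hm : 0 < ‖g.F a‖ := norm_pos_iff.2 (F_ne_zero hd g a ha0)
  refine ⟨max 1 (max ‖g.F b‖ (1 / ‖g.F a‖)), le_max_left _ _, ?_⟩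
  obtain ⟨C, hC⟩ : ∃ C : ℝ, C = max 1 (max ‖g.F b‖ (1 / ‖g.F a‖)) := ⟨_, rfl⟩
  rw [← hC]
  have hC1 : 1 ≤ C := hC ▸ le_max_left _ _
  have hCb : ‖g.F b‖ ≤ C := hC ▸ (le_max_left _ _).trans (le_max_right _ _)
  have hCa : 1 / ‖g.F a‖ ≤ C := hC ▸ (le_max_right _ _).trans (le_max_right _ _)
  have hC0 : 0 < C := by linarith
  intro v
  by_cases hv : v = 0
  · have h1 : g.F v = 0 := by
      have h2 := hsm 0 v
      rw [zero_smul, zero_pow (by omega), zero_smul] at h2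
      rw [hv]
      exact h2
    rw [h1, hv, norm_zero, zero_pow (by omega), zero_div, mul_zero]
    exact ⟨le_refl _, le_refl _⟩
  · have hn : 0 < ‖v‖ := norm_pos_iff.2 hv
    obtain ⟨u, hu⟩ : ∃ u : ℂ × ℂ, u = ((‖v‖⁻¹ : ℝ) : ℂ) • v := ⟨_, rfl⟩
    have hun : ‖u‖ = 1 := by
      rw [hu, norm_smul, Complex.norm_real, norm_inv, norm_norm, inv_mul_cancel₀ hn.ne']
    have hus : u ∈ Metric.sphere (0 : ℂ × ℂ) 1 := by rw [mem_sphere_zero_iff_norm, hun]
    have hvu : v = ((‖v‖ : ℝ) : ℂ) • u := by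
      rw [hu, smul_smul, ← Complex.ofReal_mul, mul_inv_cancel₀ hn.ne', Complex.ofReal_one, one_smul]
    have h1 : ‖g.F v‖ = ‖v‖ ^ d * ‖g.F u‖ := by
      conv_lhs => rw [hvu]
      rw [hsm, norm_smul, norm_pow, Complex.norm_real, norm_norm]
    have h2 : ‖g.F a‖ ≤ ‖g.F u‖ := hamin hus
    have h3 : ‖g.F u‖ ≤ ‖g.F b‖ := hbmax hus
    have hp : 0 < ‖v‖ ^ d := pow_pos hn d
    rw [h1]
    constructor
    · rw [div_eq_mul_inv]
      refine mul_le_mul_of_nonneg_left ?_ hp.le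
      refine le_trans ?_ h2
      rw [one_div] at hCa
      exact inv_le_of_inv_le₀ hm hCa
    · rw [mul_comm]
      exact mul_le_mul_of_nonneg_right (h3.trans hCb) hp.le

end Pool.Agent.H98.UDA
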