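import Pool.Agent.H83.UE.Targets2

/-!
# The current of a cycle: preliminaries (row CY)
-/

set_option autoImplicit false

open Polynomial MeasureTheory Filter Topology Set
open scoped ComplexConjugate ENNReal Nat

namespace Pool.Agent.H98.UDA

open Pool.Agent.H83.UE

/-! ### the stabilizer -/

theorem stab_eq {k : ℕ} (z : Fin k → ℂ) :
    stab (Finset.univ.val.map z) = ∑ π : Equiv.Perm (Fin k), if z ∘ π = z then 1 else 0 := by
  classical
  have h1 := DomMulAct.stabilizer_card' z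
  have h2 : ∑ π : Equiv.Perm (Fin k), (if z ∘ π = z then 1 else 0) =
      Fintype.card {g : Equiv.Perm (Fin k) // z ∘ g = z} := by
    rw [Fintype.card_subtype, Finset.card_filter]
  rw [h2, h1]
  unfold stab
  refine Finset.prod_congr ?_ fun x _ => ?_
  · ext x
    simp
  · rw [Fintype.card_subtype, Multiset.count_map]
    congr 1
    rw [Finset.card_def, Finset.filter_val]
    congr 1
    refine Multiset.filter_congr fun i _ => ?_
    exact ⟨fun h => h.symm, fun h => h.symm⟩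

theorem stab_measurable (k : ℕ) :
    Measurable fun z : Fin k → ℂ => stab (Finset.univ.val.map z) := by
  classical
  simp only [stab_eq]
  refine Finset.measurable_sum _ fun π _ => ?_
  refine Measurable.ite ?_ measurable_const measurable_const
  refine measurableSet_eq_fun ?_ measurable_id
  exact measurable_pi_lambda _ fun i => measurable_pi_apply _

/-! ### the minors -/

theorem rmin_measurable {k m : ℕ} (ψ : (Fin m → ℂ) → (Fin k → ℂ)) (I : Idx k m) :
    Measurable (rmin ψ I) := by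
  unfold rmin
  have h : ∀ i j : Fin m, Measurable fun t : Fin m → ℂ =>
      fderiv ℂ ψ t (Pi.single j 1) (I.1.orderEmbOfFin I.2 i) := by
    intro i j
    have h1 : Measurable fun t : Fin m → ℂ => fderiv ℂ ψ t (Pi.single j 1) :=
      measurable_fderiv_apply_const ℂ ψ (Pi.single j 1)
    exact (measurable_pi_apply _).comp h1
  simp only [Matrix.det_apply, Matrix.of_apply]
  refine Finset.measurable_sum _ fun σ _ => ?_
  refine Measurable.const_smul ?_ _
  exact Finset.measurable_prod _ fun i _ => h _ _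

/-! ### the identity map -/

/-- the identity as a rational map of degree one -/
noncomputable def g1 : RatMap 1 where
  P := X
  Q := 1
  degP := by rw [natDegree_X]
  degQ := by rw [natDegree_one]; exact Nat.zero_le _
  deg := Or.inl natDegree_X
  coprime := isCoprime_one_right

theorem g1_it : g1.it 0 = (X, 1) := rfl

theorem g1_fib (z : ℂ) : g1.fib 0 z = X - C z := by
  unfold RatMap.fib
  rw [g1_it, mul_one]

theorem g1_fibre {k : ℕ} (z : Fin k → ℂ) : fibre g1 0 z = {z} := by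
  classical
  unfold fibre
  simp only [g1_fib, roots_X_sub_C, Multiset.toFinset_singleton, Fintype.piFinset_singleton]

theorem g1_reg {k : ℕ} (z : Fin k → ℂ) : RegT g1 0 z := by
  intro l
  rw [g1_it, eval_one]
  exact one_ne_zero

theorem g1_valT {k : ℕ} (z : Fin k → ℂ) : valT g1 0 z = z := by
  funext l
  unfold valT RatMap.val
  rw [g1_it, eval_one, eval_X, div_one]

theorem g1_der (x : ℂ) : g1.der 0 x = 1 := by
  unfold RatMap.der
  have h : (fun y : ℂ => (g1.it 0).1.eval y / (g1.it 0).2.eval y) = fun y => y := by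
    funext y
    rw [g1_it, eval_one, eval_X, div_one]
  rw [h, deriv_id'']

/-- the projection to the coordinates in `J` -/
noncomputable def prJ {k m : ℕ} (J : Idx k m) (z : Fin k → ℂ) (i : Fin m) : ℂ :=
  z (J.1.orderEmbOfFin J.2 i)

/-- the projection as a continuous linear map -/
noncomputable def prL {k m : ℕ} (J : Idx k m) : (Fin k → ℂ) →L[ℂ] (Fin m → ℂ) :=
  ContinuousLinearMap.pi fun i => ContinuousLinearMap.proj (J.1.orderEmbOfFin J.2 i)

theorem prL_apply {k m : ℕ} (J : Idx k m) (z : Fin k → ℂ) : prL J z = prJ J z := rfl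

theorem prJ_diff {k m : ℕ} (J : Idx k m) : Differentiable ℂ (prJ (k := k) J) :=
  (prL J).differentiable

theorem prJ_minor {k m : ℕ} (I J : Idx k m) (z : Fin k → ℂ) :
    minor (prJ J) I z = if I = J then 1 else 0 := by
  classical
  unfold minor
  have h1 : fderiv ℂ (prJ J) z = prL J := (prL J).fderiv
  rw [h1]
  have h2 : ∀ i j : Fin m, prL J (Pi.single (I.1.orderEmbOfFin I.2 j) 1) i =
      if J.1.orderEmbOfFin J.2 i = I.1.orderEmbOfFin I.2 j then (1 : ℂ) else 0 := by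
    intro i j
    rw [prL_apply]
    unfold prJ
    rw [Pi.single_apply]
  split_ifs with hIJ
  · subst hIJ
    have h3 : (Matrix.of fun i j : Fin m => prL I (Pi.single (I.1.orderEmbOfFin I.2 j) 1) i) =
        (1 : Matrix (Fin m) (Fin m) ℂ) := by
      ext i j
      rw [Matrix.of_apply, h2, Matrix.one_apply]
      by_cases hij : i = j
      · rw [if_pos hij, if_pos (congrArg _ hij)]
      · rw [if_neg hij, if_neg (fun h => hij ((I.1.orderEmbOfFin I.2).injective h))]
    rw [h3, Matrix.det_one]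
  · -- a column vanishes
    have h4 : ∃ j : Fin m, I.1.orderEmbOfFin I.2 j ∉ J.1 := by
      by_contra hcon
      rw [not_exists] at hcon
      apply hIJ
      apply Subtype.ext
      refine Finset.eq_of_subset_of_card_le ?_ (by rw [I.2, J.2])
      intro x hx
      have h5 : x ∈ Set.range (I.1.orderEmbOfFin I.2) := by
        rw [Finset.range_orderEmbOfFin]
        exact hx
      obtain ⟨j, rfl⟩ := h5
      exact not_not.1 (hcon j)
    obtain ⟨j, hj⟩ := h4
    refine Matrix.det_eq_zero_of_column_eq_zero j fun i => ?_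
    rw [Matrix.of_apply, h2, if_neg]
    intro h
    apply hj
    rw [← h]
    exact Finset.orderEmbOfFin_mem J.1 J.2 i

theorem g1_bdet {k m : ℕ} (J : Idx k m) (ψ : (Fin m → ℂ) → (Fin k → ℂ)) (t : Fin m → ℂ)
    (x : Fin k → ℂ) : bdet g1 0 (prJ J) ψ t x = rmin ψ J t := by
  classical
  unfold bdet
  have h1 : ∀ I : Idx k m, minor (prJ J) I x * (rmin ψ I t / ∏ i ∈ I.1, g1.der 0 (x i)) =
      if I = J then rmin ψ I t else 0 := by
    intro I
    rw [prJ_minor]
    simp only [g1_der, Finset.prod_const_one, div_one]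
    split_ifs
    · rw [one_mul]
    · rw [zero_mul]
  rw [Finset.sum_congr rfl fun I _ => h1 I, Finset.sum_ite_eq' Finset.univ J,
    if_pos (Finset.mem_univ _)]

/-- the area formula for the projection of a piece -/
theorem af0 (h1 : T_AF) {k m : ℕ} (J : Idx k m) (c : Fin m → ℂ) (r : ℝ) (S : Set (Fin m → ℂ))
    (ψ : (Fin m → ℂ) → (Fin k → ℂ)) (hS : MeasurableSet S) (hSb : S ⊆ Metric.ball c r)
    (hψ : DifferentiableOn ℂ ψ (Metric.ball c r)) (hinj : InjOn ψ S) :
    ∃ Z : Set (Fin m → ℂ), MeasurableSet Z ∧ Z ⊆ S ∧ volume Z = 0 ∧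
      (∀ F : (Fin k → ℂ) → ℝ≥0∞, Measurable F →
        (Measurable fun y => ∑' x : {x // prJ J x = y ∧ ∃ t ∈ S \ Z, ψ t = x ∧ rmin ψ J t ≠ 0},
          F x.1) ∧
        ∫⁻ t in S, F (ψ t) * ENNReal.ofReal (‖rmin ψ J t‖ ^ 2) =
          ∫⁻ y, ∑' x : {x // prJ J x = y ∧ ∃ t ∈ S \ Z, ψ t = x ∧ rmin ψ J t ≠ 0}, F x.1) ∧
      volume (prJ J '' {x | ∃ t ∈ S \ Z, ψ t = x ∧ rmin ψ J t = 0}) = 0 := by
  obtain ⟨Z, hZ, hZS, hZ0, -, hF⟩ := h1 k m 1 (le_refl _) g1 0 c r S ψ (prJ J) hS hSb hψ hinj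
    (prJ_diff J)
  have hset : ∀ y : Fin m → ℂ, {x : Fin k → ℂ | RegT g1 0 x ∧ valT g1 0 x ∈ ψ '' (S \ Z) ∧
      prJ J x = y ∧ ∃ t ∈ S \ Z, ψ t = valT g1 0 x ∧ bdet g1 0 (prJ J) ψ t x ≠ 0} =
      {x | prJ J x = y ∧ ∃ t ∈ S \ Z, ψ t = x ∧ rmin ψ J t ≠ 0} := by
    intro y
    ext x
    simp only [Set.mem_ofPred_eq, g1_bdet, g1_valT]
    constructor
    · rintro ⟨-, -, h2, h3⟩
      exact ⟨h2, h3⟩
    · rintro ⟨h2, t, ht, h3, h4⟩
      exact ⟨g1_reg x, ⟨t, ht, h3⟩, h2, t, ht, h3, h4⟩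
  have hsum : ∀ (F : (Fin k → ℂ) → ℝ≥0∞) (y : Fin m → ℂ),
      ∑' x : {x : Fin k → ℂ // RegT g1 0 x ∧ valT g1 0 x ∈ ψ '' (S \ Z) ∧
        prJ J x = y ∧ ∃ t ∈ S \ Z, ψ t = valT g1 0 x ∧ bdet g1 0 (prJ J) ψ t x ≠ 0}, F x.1 =
      ∑' x : {x // prJ J x = y ∧ ∃ t ∈ S \ Z, ψ t = x ∧ rmin ψ J t ≠ 0}, F x.1 := by
    intro F y
    have e1 := tsum_subtype {x : Fin k → ℂ | RegT g1 0 x ∧ valT g1 0 x ∈ ψ '' (S \ Z) ∧
        prJ J x = y ∧ ∃ t ∈ S \ Z, ψ t = valT g1 0 x ∧ bdet g1 0 (prJ J) ψ t x ≠ 0} F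
    have e2 := tsum_subtype {x | prJ J x = y ∧ ∃ t ∈ S \ Z, ψ t = x ∧ rmin ψ J t ≠ 0} F
    exact e1.trans ((congrArg (fun s : Set (Fin k → ℂ) => ∑' x, s.indicator F x) (hset y)).trans
      e2.symm)
  refine ⟨Z, hZ, hZS, hZ0, ?_, ?_⟩
  · intro F hFm
    obtain ⟨h2, h3, -⟩ := hF F hFm
    simp only [hsum F] at h2 h3
    refine ⟨h2, ?_⟩
    rw [← h3]
    refine lintegral_congr fun t => ?_
    rw [g1_fibre, Finset.sum_singleton, g1_bdet]
  · obtain ⟨-, -, h4⟩ := hF (fun _ => 0) measurable_const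
    have e3 : {x : Fin k → ℂ | RegT g1 0 x ∧ ∃ t ∈ S \ Z, ψ t = valT g1 0 x ∧
        bdet g1 0 (prJ J) ψ t x = 0} = {x | ∃ t ∈ S \ Z, ψ t = x ∧ rmin ψ J t = 0} := by
      ext x
      simp only [Set.mem_ofPred_eq, g1_bdet, g1_valT]
      exact ⟨fun h => h.2, fun h => ⟨g1_reg x, h⟩⟩
    rw [e3] at h4
    exact h4

/-- projections of null sets -/
theorem neg0 (h2 : T_NEG) {k m : ℕ} (J : Idx k m) (N : Set (Fin k → ℂ))
    (hN : Measure.hausdorffMeasure (2 * m : ℝ) N = 0) : volume (prJ J '' N) = 0 := by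
  have h := h2 k m 1 (le_refl _) g1 0 (prJ J) N (prJ_diff J) hN
  have e : {x : Fin k → ℂ | RegT g1 0 x ∧ valT g1 0 x ∈ N} = N := by
    ext x
    simp only [Set.mem_ofPred_eq, g1_valT]
    exact ⟨fun h => h.2, fun h => ⟨g1_reg x, h⟩⟩
  rw [e] at h
  exact h

end Pool.Agent.H98.UDA
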